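import Pool.Agent.H37.CNW.Stmts

set_option autoImplicit false

namespace Pool.CND

open Finset

namespace XNHaux

/-- an odd number of odd terms -/
theorem odd_sum {G : Type} (S : Finset G) (b : G → ℤ) (h : ∀ g ∈ S, ¬ (2 : ℤ) ∣ b g) :
    (2 : ℤ) ∣ (∑ g ∈ S, b g) - S.card := by
  classical
  induction S using Finset.induction_on with
  | empty => simp
  | insert a S ha ih =>
    rw [Finset.sum_insert ha, Finset.card_insert_of_notMem ha]
    have h1 := ih (fun g hg => h g (Finset.mem_insert_of_mem hg))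
    have h2 := h a (Finset.mem_insert_self a S)
    push_cast
    omega

end XNHaux

open XNHaux in
theorem xnh_thm (hCON : S_CON) (hIRR : S_IRR) (hNGD : S_NGD) (hWLD : S_WLD) (hUMW : S_UMW)
    (hINJ : S_INJ) : S_XNH := by
  classical
  intro p k H _ _ _ _ n hp hchar hn hI
  have key : ∀ c ∈ Cond k H, ∃ y : ℤ, (n : ℚ) * c = y := by
    rintro c ⟨L, _, _, ρ, t, hcov, P, hPt, hc⟩
    have : Fintype H := Fintype.ofFinite H
    have hinj : Function.Injective ρ := hcov.inj
    obtain ⟨W, I, hW, hIr, hWI, ⟨a, ha⟩, m, -, -⟩ := hWLD p k L H P ρ hp hchar hinj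
    rcases hCON k L H P ρ W I c hinj hW hIr hc with h0 | ⟨l, hl, hcU⟩
    · exact ⟨0, by rw [h0]; simp⟩
    have hWpos : (0 : ℚ) < (Nat.card W : ℚ) := by exact_mod_cast Nat.card_pos
    set z0 : ℤ := l + sm (fun g => P.b (ρ g)) {g | g ∈ W ∧ g ≠ 1} with hz0
    have hcz : (Nat.card I : ℚ) * c = z0 := by
      rw [hcU]
      unfold U
      rw [mul_div_cancel₀ _ hWpos.ne', hz0]
      push_cast
      rfl
    have heI : Nat.card I = (ram P ρ 0).ncard := by
      rw [← hIr]
      exact Nat.card_coe_set_eq _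
    have he : Nat.card I ∣ Nat.gcd 2 p * n := by
      apply hI
      exact ⟨L, _, _, ρ, t, hcov, P, hPt, heI⟩
    obtain ⟨q, hq⟩ := he
    have hg : ((Nat.gcd 2 p * n : ℕ) : ℚ) * c = (q : ℚ) * z0 := by
      rw [hq]
      push_cast
      rw [mul_comm (Nat.card I : ℚ) (q : ℚ), mul_assoc, hcz]
    by_cases hp2 : p = 2
    · subst hp2
      -- `z0` is even
      have hodd : ∀ g ∈ W, g ≠ 1 → ¬ (2 : ℤ) ∣ P.b (ρ g) := by
        intro g hgW hg1
        have hpos : 1 ≤ P.b (ρ g) := (hUMW k L H P ρ W hinj hW).pos g hgW hg1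
        have hram : g ∈ ram P ρ 1 := by rw [← hW]; exact hgW
        have hne : ρ g P.pi ≠ P.pi := by
          intro h
          apply hg1
          apply hinj
          rw [map_one]
          exact hINJ k L P (ρ g) P.pi hram.1 P.pi_ne P.ord_pi h
        have hpw : (ρ g) ^ (2 ^ a) = 1 := by
          have h1 : (⟨g, hgW⟩ : W) ^ Nat.card W = 1 := pow_card_eq_one'
          rw [ha] at h1
          have h2 : g ^ (2 ^ a) = 1 := congrArg Subtype.val h1
          rw [← map_pow, h2, map_one]
        have hb : P.ord (ρ g P.pi - P.pi) = P.b (ρ g) + 1 := by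
          unfold Place.b
          ring
        have := hIRR 2 k L P (ρ g) P.pi (P.b (ρ g)) a hp hchar hram.1 P.pi_ne P.ord_pi hpos hne hb hpw
        exact_mod_cast this
      obtain ⟨⟨g0, hg0, hg01, hg0l⟩, -⟩ := hl
      have hlodd : ¬ (2 : ℤ) ∣ l := by
        have := hodd g0 hg0 hg01
        rwa [hg0l] at this
      have hsum : (2 : ℤ) ∣ sm (fun g => P.b (ρ g)) {g | g ∈ W ∧ g ≠ 1} -
          ((univ.filter (fun g => g ∈ {g : H | g ∈ W ∧ g ≠ 1})).card : ℤ) := by
        have h5 := odd_sum (univ.filter (fun g => g ∈ {g : H | g ∈ W ∧ g ≠ 1}))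
          (fun g => P.b (ρ g)) (fun g hg' => by
            rw [Finset.mem_filter] at hg'
            exact hodd g hg'.2.1 hg'.2.2)
        unfold sm
        convert h5 using 2
        exact Finset.sum_congr (by ext g; simp only [Finset.mem_filter]) (fun _ _ => rfl)
      have hcardW : (univ.filter (fun g => g ∈ {g : H | g ∈ W ∧ g ≠ 1})).card + 1 = Nat.card W := by
        have h1 : (univ.filter (fun g : H => g ∈ W)).card = Nat.card W := by
          rw [Nat.card_eq_fintype_card]
          exact (Fintype.card_subtype (fun g : H => g ∈ W)).symm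
        have h2 : univ.filter (fun g => g ∈ {g : H | g ∈ W ∧ g ≠ 1}) =
            (univ.filter (fun g : H => g ∈ W)).erase 1 := by
          ext g
          simp only [Finset.mem_filter, Finset.mem_univ, true_and, Finset.mem_erase]
          change (g ∈ W ∧ g ≠ 1) ↔ (g ≠ 1 ∧ g ∈ W)
          tauto
        rw [h2, ← h1, Finset.card_erase_add_one]
        rw [Finset.mem_filter]
        exact ⟨Finset.mem_univ _, W.one_mem⟩
      have hWeven : 2 ∣ Nat.card W := by
        rw [ha]
        have ha0 : a ≠ 0 := by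
          rintro rfl
          rw [pow_zero] at ha
          apply hg01
          have h3 : W = ⊥ := Subgroup.eq_bot_of_card_eq W ha
          rw [h3] at hg0
          exact Subgroup.mem_bot.1 hg0
        exact dvd_pow_self 2 ha0
      have hz2 : (2 : ℤ) ∣ z0 := by
        rw [hz0]
        omega
      obtain ⟨w, hw⟩ := hz2
      refine ⟨q * w, ?_⟩
      rw [Nat.gcd_self, hw] at hg
      push_cast at hg ⊢
      linarith
    · have hgcd : Nat.gcd 2 p = 1 := by
        rw [← Nat.coprime_iff_gcd_eq_one]
        exact (Nat.coprime_primes Nat.prime_two hp).2 (fun h => hp2 h.symm)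
      refine ⟨q * z0, ?_⟩
      rw [hgcd, one_mul] at hg
      rw [hg]
      push_cast
      ring
  exact ⟨key, hNGD k H n hn key⟩

end Pool.CND
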